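import Pool.Agent.V7H98.BW.Main

/-!
# Monochromatic Pythagorean triples: colourings computed with bounded memory

Let `b ≥ 2`, `M ≥ 1`. We consider colourings of the numbers `1 ≤ n < b ^ M` which are computed by a read-once
program of bounded width (a streaming algorithm with a bounded memory, which is allowed to be non-uniform): there
is a finite set `Q` of states, the digits of `n` in base `b` are read one after the other in the places `M - 1`,
`M - 2`, …, `0`, and the digit `d` in the place `m` changes the state from `q` to `δ m d q`. The transitions `δ m` may
depend on the place `m` in an ARBITRARY way, and everything may depend on `M` in an arbitrary way. The colour is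

`c(n) = F((v_p(n))_{p ∈ P}; l(n); s(n))`

where `s(n)` is the state at the end, `l(n)` the number of digits of `n`, `v_p(n)` the exponent of the prime `p` in `n`,
`P` a finite set of primes, and `F` an ARBITRARY function with values in a finite set of colours.

Finite automata are the case where `δ m` does not depend on `m` (and on `M`). They give countably many state
functions only, the programs of width `2` already give uncountably many. Examples of colourings in the class, for
arbitrary sets and sequences:

* the residue modulo `m` of `a_0 d_0 + a_1 d_1 + …` (`d_i` the digits of `n`) for an arbitrary sequence of integers
  `a_i`; the products `g_0(d_0) g_1(d_1) …` in a finite group, for arbitrary functions `g_i` from the digits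
  to the group; for instance the parity of the number of digits `1` in the places which are prime numbers;
* whether a given block of digits occurs in `n` in a place which belongs to an arbitrary set `A`, or the parity of
  the number of the occurrences; the first (or the last) nonzero digit of `n` in a place which belongs to `A`;
* any function of finitely many colourings of this kind, of a colouring which is an automatic sequence in base
  `b`, of the residue of `n` modulo `m`, of the size of `n` (any partition of the set of the `l(n)`), of the leading
  digits, of the number of trailing zeros (which is a function of the `v_p(n)`, `p ∣ b`);
* programs which read the digits beginning with the last digit, or which read them several (a bounded number of)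
  times in both directions, and programs which read the digits of `a n + a'` (all these can be simulated by programs of
  our form, of a larger but bounded width).

**Theorem.** For every base `b`, all finite sets `Q`, `C`, every finite set `P` of primes and every `K` there is an
`M_0` such that for all `M ≥ M_0` every colouring of this kind of the numbers below `b ^ M`, with the set `Q` of
states and the set `C` of colours, has a monochromatic Pythagorean triple `x ^ 2 + y ^ 2 = z ^ 2`, with `z > K x`.

So for a colouring of the positive integers without monochromatic Pythagorean triples (if there is one) the
width of the read-once programs which compute it below `b ^ M` tends to infinity with `M`, even if one may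
use the exponents of finitely many primes and the number of digits for free.

The starting results on this problem treat finite automata, in several bases (`AutomaticColourings`,
`AutomataDigitsZeros`); `LowDegreeColourings` treats polynomials over a prime field in the digits, in prime bases. In
the case of an automaton one repeats a block of digits, and the transitions of the repetitions are the same map of the
states. Here the transitions of the repetitions have nothing to do with one another.

Proof. Let `ρ` be the least number such that for some `l` there are arbitrarily long windows (intervals of places,
in some of the programs for which the theorem fails) in which at every place one can put a word of `l` digits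
which acts on the states with rank at most `ρ`. As `ρ` is minimal, one can moreover find arbitrarily long windows of
this kind in which no word at all has a rank less than `ρ`. Now `l` is fixed, and so we can choose after this a family
of triples whose members are numbers `b ^ e x`, `x ≡ 1` modulo `b ^ L` and `b ^ g ≤ x ≤ (1 + b ^ (-L)) b ^ g`, with a
large `L`; `e`, `g` and the exponents of the primes only depend on the type of the member. For every place one
finds a word `v` of length `L` which has rank at most `ρ` in all the places where its copies occur in the
products `v b ^ e x`. By the pigeonhole principle (a theorem on monochromatic increasing paths in colourings of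
pairs) there are a word `v` and many places such that the actions of the beginning and of the end of `v x`, of the
digits between them and of the zeros between two consecutive places are the same for all these places. The multiplier
`μ` is the sum of the `v b ^ p` over these places `p`. The action of one period is a permutation of the image of
the last word `v`, because the rank is minimal, and the number of the places is a common multiple of the orders of the
permutations; from this one computes that the final state after reading `μ b ^ e x` depends on the type only. The
pigeonhole principle, applied to the types, gives the triple.
-/

set_option autoImplicit false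

namespace Pool.Agent.Results.MP_0f91f8_co.BoundedWidthH98

/-- The state at the end, if the digits of `n` in base `b` in the places `m - 1, m - 2, …, 0` (`b ^ i` has
the place `i`; leading zeros are read, too) are read in this order, beginning in the state `q`: the digit
`n / b ^ i % b` in the place `i` changes the state by the map `δ i (n / b ^ i % b)`. -/
def read {Q : Type} (b : ℕ) (δ : ℕ → ℕ → Q → Q) (n : ℕ) : ℕ → Q → Q
  | 0, q => q
  | m + 1, q => read b δ n m (δ m (n / b ^ m % b) q)

/-- The colour of `n`: an arbitrary function `F` of the exponents in `n` of the primes in the finite set `P`,
of the number of digits of `n` in base `b`, and of the state after reading the digits in the places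
`M - 1, …, 0`, beginning in the state `q₀`. -/
def colour {Q C : Type} (b M : ℕ) (δ : ℕ → ℕ → Q → Q) (q₀ : Q) (P : Finset ℕ)
    (F : (P → ℕ) → ℕ → Q → C) (n : ℕ) : C :=
  F (fun p => padicValNat p n) (Nat.digits b n).length (read b δ n M q₀)

/-- For every base `b ≥ 2`, all finite sets `Q` (states) and `C` (colours), every finite set `P` of primes and every
`K` there is `M₀` such that for all `M ≥ M₀`, all transitions `δ` (depending on the place and the digit in an
arbitrary way), all initial states `q₀` and all functions `F` there is a Pythagorean triple below `b ^ M`
with `z > K x` whose members have the same colour. -/
theorem result (b : ℕ) (hb : 2 ≤ b) (Q C : Type) [Finite Q] [Finite C] (P : Finset ℕ)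
    (hP : ∀ p ∈ P, p.Prime) (K : ℕ) :
    ∃ M₀ : ℕ, ∀ M : ℕ, M₀ ≤ M → ∀ (δ : ℕ → ℕ → Q → Q) (q₀ : Q) (F : (P → ℕ) → ℕ → Q → C),
      ∃ x y z : ℕ, 0 < x ∧ 0 < y ∧ x ^ 2 + y ^ 2 = z ^ 2 ∧ K * x < z ∧ z < b ^ M ∧
        colour b M δ q₀ P F x = colour b M δ q₀ P F y ∧
        colour b M δ q₀ P F y = colour b M δ q₀ P F z := by
  have hrun : ∀ (δ : ℕ → ℕ → Q → Q) (n m : ℕ) (q : Q),
      Pool.Agent.V7H98.BW.run δ b 0 m n q = read b δ n m q := by
    intro δ n m
    induction m with
    | zero => intro q; rfl
    | succ m ih =>
      intro q
      rw [Pool.Agent.V7H98.BW.run_add δ 0 m 1 n q, zero_add]
      change Pool.Agent.V7H98.BW.run δ b 0 m n (δ m (n / b ^ m % b) q) = _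
      rw [ih]
      rfl
  obtain ⟨M₀, hM₀⟩ := Pool.Agent.V7H98.BW.final (Q := Q) (b := b) hb P hP (C := C) K
  refine ⟨M₀, fun M hM δ q₀ F => ?_⟩
  obtain ⟨x, y, z, hx, hy, h, hK, hz, c, hc⟩ := hM₀ M hM δ q₀ F
  have hcol : ∀ n, n = x ∨ n = y ∨ n = z → colour b M δ q₀ P F n = c := by
    intro n hn
    have := hc n hn
    rw [hrun] at this
    exact this
  refine ⟨x, y, z, hx, hy, h, hK, hz, ?_, ?_⟩
  · exact (hcol x (Or.inl rfl)).trans (hcol y (Or.inr (Or.inl rfl))).symm
  · exact (hcol y (Or.inr (Or.inl rfl))).trans (hcol z (Or.inr (Or.inr rfl))).symm

end Pool.Agent.Results.MP_0f91f8_co.BoundedWidthH98
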