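import Mathlib
import Pool.Agent.V7H37.PyC.Cor

/-!
# Pythagorean triples and the values of arbitrary multiplicative functions

Let `f` be a multiplicative function in the ordinary sense: `f (m n) = f m * f n` for COPRIME `m` and
`n`; no relation between the values at the powers of a prime is assumed. The values may lie in any
compact Hausdorff commutative topological semigroup. Examples: 1-bounded complex functions, that is
all functions into the unit disc, `exp (i A(n))` for an arbitrary real additive function `A`, finite
semigroups (residue classes; the number of prime factors, the number of divisors, the sum of the divisors, the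
totient, Ramanujan's tau function modulo `m`), products of finitely or infinitely many such functions.

1. There is a value `s` such that for each neighbourhood `U` of `s` the set `{n | f n ∈ U}` contains
   Pythagorean triples `k x, k y, k z` with coprime and arbitrarily large `x, y, z`. It suffices
   that `f (m n) = f m * f n` for coprime `m`, `n` of which `n` is also coprime to some fixed `M`; so the
   values at the numbers composed of primes from a finite set can be changed arbitrarily.
2. In particular for finitely many 1-bounded multiplicative functions there are such triples on which all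
   these functions are constant up to `ε`.
3. Every finite colouring such that the colour of `n` is any function of the values of finitely many
   multiplicative functions with finitely many values (in a finite commutative semigroup) and
   of the exponents of finitely many primes in `n` has monochromatic Pythagorean triples.

Idea of the proof.  By the theorem of Hales and Jewett, applied on a cube whose vertices are mapped
to integers all of whose relevant combinations are squarefree outside a fixed set of primes (this is
obtained by a sieve), there are Gaussian integers `b + i e` such that the values of `f` at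
`b + q e` nearly agree for all `q` in a given finite set of rationals; `e` is divisible by high powers
of the primes considered before, and `f(b)` nearly agrees with the value of `f` at the other part of `e`.
By compactness all these Gaussian integers have nearly the same defect `f(b^2 + e^2) / f(b)^2`; for
a product `A + i D` of as many of them as are needed to make this defect disappear let `x = 2 A D`,
`y = A^2 - D^2`, `z = A^2 + D^2`.  The small primes are handled by the factor `k`.  The division
is possible after multiplication by an idempotent in the minimal ideal of the semigroup of the limit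
values of `f` at numbers without small prime factors.
-/

set_option autoImplicit false

namespace Pool.Agent.Results.MP_0f91f8_co.MultiplicativeValuesH37

open Topology

theorem result :
    -- 1. values in compact commutative semigroups
    (∀ (ι : Type) (S : ι → Type) [∀ i, CommSemigroup (S i)] [∀ i, TopologicalSpace (S i)]
      [∀ i, CompactSpace (S i)] [∀ i, T2Space (S i)] [∀ i, ContinuousMul (S i)]
      (M : ℕ) (_ : 0 < M) (f : ∀ i, ℕ → S i)
      (_ : ∀ i, ∀ m n : ℕ, 0 < m → 0 < n → m.Coprime n → n.Coprime M → f i (m * n) = f i m * f i n),
      ∃ s : ∀ i, S i, ∀ U ∈ 𝓝 s, ∀ B : ℕ,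
        ∃ k x y z : ℕ, 0 < k ∧ B < x ∧ B < y ∧ B < z ∧ x ^ 2 + y ^ 2 = z ^ 2 ∧ x.Coprime y ∧
          (fun i => f i (k * x)) ∈ U ∧ (fun i => f i (k * y)) ∈ U ∧ (fun i => f i (k * z)) ∈ U) ∧
    -- 2. bounded complex functions
    (∀ (r : ℕ) (f : Fin r → ℕ → ℂ) (_ : ∀ i n, 0 < n → ‖f i n‖ ≤ 1)
      (_ : ∀ i, ∀ m n : ℕ, 0 < m → 0 < n → m.Coprime n → f i (m * n) = f i m * f i n)
      (ε : ℝ) (_ : 0 < ε) (B : ℕ),
      ∃ k x y z : ℕ, 0 < k ∧ B < x ∧ B < y ∧ B < z ∧ x ^ 2 + y ^ 2 = z ^ 2 ∧ x.Coprime y ∧
        ∀ i, ‖f i (k * x) - f i (k * y)‖ < ε ∧ ‖f i (k * y) - f i (k * z)‖ < ε) ∧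
    -- 3. colourings
    (∀ (S : Type) [CommSemigroup S] [Finite S] (f : ℕ → S)
      (_ : ∀ m n : ℕ, 0 < m → 0 < n → m.Coprime n → f (m * n) = f m * f n)
      (P : Finset ℕ) (C : Type) [Finite C] (Φ : S → (↥P → ℕ) → C) (B : ℕ),
      ∃ k x y z : ℕ, 0 < k ∧ B < x ∧ B < y ∧ B < z ∧ x ^ 2 + y ^ 2 = z ^ 2 ∧ x.Coprime y ∧
        ∃ c : C, ∀ n ∈ ({k * x, k * y, k * z} : Finset ℕ),
          Φ (f n) (fun p => n.factorization p) = c) := by
  refine ⟨?_, ?_, ?_⟩
  · intro ι S _ _ _ _ _ M hM f hf
    exact Pool.Agent.V7H37.PyC.pyth_semigroup M hM (fun n i => f i n)
      (fun m n hm hn hmn hnM => funext fun i => hf i m n hm hn hmn hnM)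
  · intro r f h1 hf ε hε B
    exact Pool.Agent.V7H37.PyC.pyth_disc 1 one_pos f h1
      (fun i m n hm hn hmn _ => hf i m n hm hn hmn) ε hε B
  · intro S _ _ f hf P C _ Φ B
    exact Pool.Agent.V7H37.PyC.pyth_exponents f hf P Φ B

end Pool.Agent.Results.MP_0f91f8_co.MultiplicativeValuesH37
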