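import Pool.Agent.V7H98.OS.Last

/-!
# Monochromatic Pythagorean triples: automata in the Zeckendorf and Ostrowski numeration systems

Let `a ≥ 1` and `q_0 = 1`, `q_1 = a`, `q_(i+2) = a q_(i+1) + q_i`; these are the denominators of the convergents
of `[0; a, a, a, …]`. Every positive integer `n` has a unique expansion `n = d_0 q_0 + d_1 q_1 + … + d_(l-1) q_(l-1)`
with digits `0 ≤ d_i ≤ a`, `d_0 < a`, `d_(l-1) ≥ 1`, and `d_i = 0` if `d_(i+1) = a`, the greedy expansion
(the Ostrowski numeration system of `[0; a, a, a, …]`). For `a = 1` these are the digits of `n` in the
Zeckendorf (Fibonacci) numeration system, followed by one additional digit `0`.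

Let a finite automaton read the digits `d_(l-1), …, d_0` of `n`, the most significant digit first, let
`s(n)` be the state at the end and let `t(n)` be the number of trailing zeros, that is the least `i` with
`d_i ≠ 0`. We consider the colourings

`c(n) = F(l(n); t(n); s(n))`

where `F` is an ARBITRARY function with values in a finite set of colours. Without the first
two arguments these are the Ostrowski-automatic (for `a = 1` the Fibonacci-automatic) colourings; examples
are the parity (or the residue modulo `m`) of the sum of the Zeckendorf digits, the values of the infinite Fibonacci
word, of the Pell word and of other Sturmian words and their images, the residue of `n` modulo `m` and the residue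
modulo `m` of `⌊n φ⌋`, the presence of a block of digits, …. With the first two arguments one can in
addition use any finite partition of the sizes (the intervals between consecutive Fibonacci numbers are
coloured in an arbitrary way) and any finite partition of the values of `t(n)`; for `a = 1` the number `t(n)` describes
how well `n φ` is approximated by an integer.

The starting results on this problem treat automata which read the digits in one or several integer bases, and
other classes; there is none on numeration systems of this type. A Fibonacci-automatic colouring which is not ultimately
periodic, as the parity of the sum of the Zeckendorf digits, is not automatic in any integer base (Cobham-Durand).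

**Theorem.** For every such colouring there are Pythagorean triples `x ^ 2 + y ^ 2 = z ^ 2`, with `x`, `y`, `z`
of the same colour, and with `z / x` as large as we please.

Proof. Let `β > 1` be the root of `X ^ 2 = a X + 1`, `β'` its conjugate and `t_n = β ^ n + β' ^ n`. For even `n` we
have `t_n q_m = q_(m+n) + q_(m-n)`. From `u = t_h + t_s`, `2 v = t_s` (`h`, `s` even, `3 ∣ s`, so that `t_s` is
even) one obtains Pythagorean triples `u ^ 2 - v ^ 2`, `2 u v`, `u ^ 2 + v ^ 2` where one leg is
`t_(h+s)` and the other leg and the hypotenuse are `t_(2h)`, up to additional terms which are positive and small compared with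
these numbers; the exponents are in arithmetic progressions of our choice. Let `x = t_n + m` be such a number with `n` even, `m` small.
A finite sequence of digits `v`, placed in the positions `M, M + 1, …`, has the value `W = v_0 q_M + v_1 q_(M+1) + …` and
`x W = Σ v_i q_(M+i+n) + (small middle part) + Σ v_i q_(M+i-n)`; the key estimate shows that the middle part, which is
`m W + …`, is in all the cases a number whose greedy digits lie strictly between the two copies of `v`, for `M` large, so that
the digits of `x W` are `v`, then a middle part, then again `v`. As in the case of integer
bases, `v` is chosen such that reading `v` acts on the states as an idempotent map of minimal rank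
within the semigroup generated by the middle parts; the powers of the permutations obtained in this way are
trivial for suitable lengths, and with several copies of such blocks in a sum `μ = W_1 + W_2 + …` the final state after reading `μ x`
depends only on the type of `x`, that is on its size `n`; so do the number of digits and the number of
trailing zeros. The pigeonhole principle, applied to the types, gives the triple.
-/

set_option autoImplicit false

namespace Pool.Agent.Results.MP_0f91f8_co.OstrowskiAutomataH98

/-- The sequence `1, a, a ^ 2 + 1, …` with `basis a (n + 2) = a * basis a (n + 1) + basis a n`. For `a = 1` these are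
the Fibonacci numbers `1, 1, 2, 3, 5, …`. -/
def basis (a : ℕ) : ℕ → ℕ
  | 0 => 1
  | 1 => a
  | n + 2 => a * basis a (n + 1) + basis a n

/-- The number of digits of `n`: the least `l` with `n < basis a l`. -/
noncomputable def numDigits (a n : ℕ) : ℕ := sInf {l | n < basis a l}

/-- The list of the first `l` greedy digits of `n` (if `n < basis a l`), the least significant digit first: the
digit at the position `l - 1` is `n / basis a (l - 1)`, then one continues with the remainder. -/
def digitList (a : ℕ) : ℕ → ℕ → List ℕ
  | 0, _ => []
  | l + 1, n => digitList a l (n % basis a l) ++ [n / basis a l]

/-- The greedy digits of `n`, the least significant digit first. -/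
noncomputable def digits (a n : ℕ) : List ℕ := digitList a (numDigits a n) n

/-- The number of zeros at the end of the expansion of `n`. -/
noncomputable def trailingZeros (a n : ℕ) : ℕ := ((digits a n).takeWhile (fun d => d = 0)).length

/-- The state of the automaton with the transition function `δ` and the initial state `q₀` after reading
the digits of `n`, the most significant digit first. -/
noncomputable def state {Q : Type} (a : ℕ) (δ : ℕ → Q → Q) (q₀ : Q) (n : ℕ) : Q :=
  (digits a n).foldr δ q₀

/-- The colour of `n`: an arbitrary function `F` of the number of digits, the number of trailing zeros and the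
state of the automaton. -/
noncomputable def colour {Q C : Type} (a : ℕ) (δ : ℕ → Q → Q) (q₀ : Q) (F : ℕ → ℕ → Q → C) (n : ℕ) : C :=
  F (numDigits a n) (trailingZeros a n) (state a δ q₀ n)

/-- For every `a ≥ 1`, every finite automaton `(Q, δ, q₀)` and every function `F` with values in a finite set the
colouring `colour a δ q₀ F` has monochromatic Pythagorean triples, with `z / x` as large as we please. -/
theorem result (a : ℕ) (ha : 1 ≤ a) (Q : Type) [Finite Q] (δ : ℕ → Q → Q) (q₀ : Q)
    (C : Type) [Finite C] (F : ℕ → ℕ → Q → C) (K : ℕ) :
    ∃ x y z : ℕ, 0 < x ∧ 0 < y ∧ x ^ 2 + y ^ 2 = z ^ 2 ∧ K * x < z ∧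
      colour a δ q₀ F x = colour a δ q₀ F y ∧ colour a δ q₀ F y = colour a δ q₀ F z := by
  have hq : ∀ n, basis a n = Pool.Agent.V7H98.OS.q a n := by
    intro n
    induction n using Pool.Agent.V7H98.OS.two_step with
    | h0 => rfl
    | h1 => rfl
    | h n h1 h2 =>
      rw [Pool.Agent.V7H98.OS.q_succ, ← h1, ← h2]
      rfl
  have hd : ∀ l n, digitList a l n = Pool.Agent.V7H98.OS.digs a l n := by
    intro l
    induction l with
    | zero => intro n; rfl
    | succ l ih =>
      intro n
      simp only [digitList, Pool.Agent.V7H98.OS.digs]
      rw [ih, hq]
  have hn : ∀ n, numDigits a n = Pool.Agent.V7H98.OS.nd a n := by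
    intro n
    unfold numDigits Pool.Agent.V7H98.OS.nd
    simp only [hq]
  obtain ⟨x, y, z, hx, hy, h, hK, c, hc⟩ := Pool.Agent.V7H98.OS.final ha δ q₀ F K
  have hcol : ∀ n, n = x ∨ n = y ∨ n = z → colour a δ q₀ F n = c := by
    intro n hn'
    unfold colour trailingZeros state digits
    rw [hd, hn]
    exact hc n hn'
  refine ⟨x, y, z, hx, hy, h, hK, ?_, ?_⟩
  · exact (hcol x (Or.inl rfl)).trans (hcol y (Or.inr (Or.inl rfl))).symm
  · exact (hcol y (Or.inr (Or.inl rfl))).trans (hcol z (Or.inr (Or.inr rfl))).symm

end Pool.Agent.Results.MP_0f91f8_co.OstrowskiAutomataH98
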