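import Pool.Agent.V7H98.PA.Mon

/-!
# Monochromatic Pythagorean triples: automata with counters

Let `b ≥ 2` be a base and let a finite automaton (finite set of states `Q`, transition function `δ`, initial
state `q₀`) read the digits of `n` in base `b`, starting with the most significant digit. The automaton has
counters: whenever it reads the digit `d` in the state `q` the element `w(d, q)` of a commutative monoid `A`
(for instance a vector of integers) is added. Let `s(n)` be the state at the end, `W(n)` the final value of the
counters, `l(n)` the number of digits of `n` in base `b`, and for the primes `p` of a finite set `P` let
`v_p(n)` be the exponent of `p` in `n`. We consider colourings of the form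

`c(n) = F((v_p(n))_{p ∈ P}; l(n); s(n); W(n))`

where `F` is an ARBITRARY function with values in a finite set of colours. For instance `c(n)` can be any function
(with finitely many values) of

* the number of occurrences of each of the digits `0, …, b - 1` in `n`, and so of the multiset of the digits
  of `n`; in particular any function of the sum of the digits;
* the numbers of occurrences of finitely many blocks of digits (as `11` or `010`), the number of
  pairs of equal consecutive digits, the alternating sum of the digits, the sum of the digits at the positions
  counted from the top which are divisible by `3`, …;
* for every state and every digit, the number of times the automaton reads this digit in this state (this is the most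
  general case; such counting automata are called Parikh automata),

together with the residue of `n` modulo `q`, for fixed `q`, the number of digits and the exponents of finitely many
primes in `n`.

The starting results on this problem treat finite automata without counters, in several bases, together with the numbers of
digits and of trailing zeros (`AutomataDigitsZeros`), and polynomials of low degree in the digits
(`LowDegreeColourings`), and other classes. Colourings given by arbitrary functions of unbounded counters, as the
number of digits `1`, are in general in none of these classes. (For functions of the sum of the digits alone there is
an easy proof: all products `(b ^ L - 1) m`, `0 < m ≤ b ^ L`, have the sum of digits `(b - 1) L`.)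

**Theorem.** For every such colouring there are Pythagorean triples `x ^ 2 + y ^ 2 = z ^ 2`, with `x`, `y`, `z`
of the same colour, and with `z / x` as large as we please; so there are infinitely many such triples which
are pairwise not similar.

Proof. As in the starting files we use a finite family of triples, all whose members, up to powers of `B` (a multiple of
`b` and of the primes in `P`), are numbers `x_k` congruent to `1` modulo a high power of `b` and very close
to powers of `b`; the exponents depend only on the type of `x_k`. We look for a multiplier `μ` such that
the state and the counters after reading `μ x_k` depend only on the type of `x_k`; then the pigeonhole principle,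
applied to the types, gives the triple. `μ` is a concatenation of blocks `a_1, a_2, …`, separated by zeros, so
that `μ x_k` is the concatenation of the blocks `a_i x_k`. With words which act on the states as
idempotent maps of minimal rank one sees that from a suitable state `q'` every sequence of blocks can be completed to
a closed walk, which leads from `(q', …, q')` back to this point in all the runs, for all `k`. The differences of the
counters for the different `k` on the closed walks form a semigroup `S` of integer vectors. The main point is that
`S` is a GROUP. Otherwise there would be a linear functional `φ ≥ 0` on `S` which is not zero on `S`
(Riesz extension theorem and Dirichlet's approximation theorem). Using a potential on the finite set of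
tuples of states and a universal word one finds that `φ` is at least `c L - C` on average over all numbers
`a < b ^ L`, with `c > 0`. On the other hand, the average of the counters over the products `a x_k`, `a < b ^ L`, is
`ρ L + o(L)` with the same vector `ρ` for all `k`: up to carries the digits of `a x_k` are equidistributed, and
Poisson's equation for the random walk on the states shows that the mean growth does not depend on the
starting state. So the average of `φ` is `o(L)`, a contradiction. As `S` is a group, the closed walk which starts
with the block required at the top can be completed to a closed walk for which the counters are the same for all `k`.
Finally the effect of the missing leading zeros of `μ x_k` depends only on the type of `x_k`.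
-/

set_option autoImplicit false

namespace Pool.Agent.Results.MP_0f91f8_co.ParikhAutomataH98

/-- The number of digits of `n` in base `b`. -/
def numDigits (b n : ℕ) : ℕ := (Nat.digits b n).length

/-- The state of the automaton with the transition function `δ` and the initial state `q₀` after reading
the digits of `n` in base `b`, the most significant digit first (`Nat.digits` lists the digits of `n`,
the least significant digit first). -/
def state {Q : Type} (b : ℕ) (δ : ℕ → Q → Q) (q₀ : Q) (n : ℕ) : Q := (Nat.digits b n).foldr δ q₀

/-- The value of the counters after reading a list of digits; the head of the list is the last digit which
is read. Reading the digit `d` in the state `q` adds `w d q`. -/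
def countList {Q A : Type} [AddCommMonoid A] (δ : ℕ → Q → Q) (w : ℕ → Q → A) (q₀ : Q) : List ℕ → A
  | [] => 0
  | d :: l => w d (l.foldr δ q₀) + countList δ w q₀ l

/-- The value of the counters after reading the digits of `n` in base `b`, the most significant digit
first. -/
def count {Q A : Type} [AddCommMonoid A] (b : ℕ) (δ : ℕ → Q → Q) (w : ℕ → Q → A) (q₀ : Q) (n : ℕ) : A :=
  countList δ w q₀ (Nat.digits b n)

/-- The colour of `n`: an arbitrary function `F` of the exponents in `n` of the primes in the finite set `P`,
of the number of digits in base `b`, of the state of the automaton and of the value of the counters. -/
def colour {Q A C : Type} [AddCommMonoid A] (b : ℕ) (δ : ℕ → Q → Q) (w : ℕ → Q → A) (q₀ : Q)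
    (P : Finset ℕ) (F : (P → ℕ) → ℕ → Q → A → C) (n : ℕ) : C :=
  F (fun p => padicValNat p n) (numDigits b n) (state b δ q₀ n) (count b δ w q₀ n)

/-- For every base `b ≥ 2`, every finite automaton `(Q, δ, q₀)` with counters `w` in a commutative monoid,
every finite set `P` of primes and every function `F` with values in a finite set `C` the colouring
`colour b δ w q₀ P F` has monochromatic Pythagorean triples, with `z / x` as large as we please. -/
theorem result (b : ℕ) (hb : 2 ≤ b) (Q : Type) [Finite Q] (δ : ℕ → Q → Q) (q₀ : Q)
    (A : Type) [AddCommMonoid A] (w : ℕ → Q → A) (P : Finset ℕ) (hP : ∀ p ∈ P, p.Prime)
    (C : Type) [Finite C] (F : (P → ℕ) → ℕ → Q → A → C) (K : ℕ) :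
    ∃ x y z : ℕ, 0 < x ∧ 0 < y ∧ x ^ 2 + y ^ 2 = z ^ 2 ∧ K * x < z ∧
      colour b δ w q₀ P F x = colour b δ w q₀ P F y ∧
      colour b δ w q₀ P F y = colour b δ w q₀ P F z := by
  have hcl : ∀ l : List ℕ, countList δ w q₀ l = Pool.Agent.V7H98.PA.lw δ w q₀ l := by
    intro l
    induction l with
    | nil => rfl
    | cons d l ih =>
      simp only [countList, Pool.Agent.V7H98.PA.lw]
      rw [ih]
  obtain ⟨x, y, z, hx, hy, h, hK, c, hc⟩ := Pool.Agent.V7H98.PA.final_monoid hb δ w q₀ P hP F K
  have hcol : ∀ n, n = x ∨ n = y ∨ n = z → colour b δ w q₀ P F n = c := by
    intro n hn
    unfold colour count numDigits state
    rw [hcl]
    exact hc n hn
  refine ⟨x, y, z, hx, hy, h, hK, ?_, ?_⟩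
  · exact (hcol x (Or.inl rfl)).trans (hcol y (Or.inr (Or.inl rfl))).symm
  · exact (hcol y (Or.inr (Or.inl rfl))).trans (hcol z (Or.inr (Or.inr rfl))).symm

end Pool.Agent.Results.MP_0f91f8_co.ParikhAutomataH98
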